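import Pool.Agent.L7h64.ABGModel

/-!
# The conjecture of Shang on the homology of `ABG(Alt(V))` is false

For every field `k` of characteristic zero and for `dim V = 9`, some homology group
`H_n(ABG(Alt(V)), k)` with `n ≥ 2` has a direct summand, as an `sl_3`-module, which is isomorphic
to the trivial module `k` or to the adjoint module `sl_3`.
-/

set_option autoImplicit false

namespace Pool.Agent.Results.MP_894cc0_al.HomologySummand

open Pool.Agent.L7h64.ABG

universe u

attribute [local instance 100] LieRing.ofAssociativeRing LieAlgebra.ofAssociativeAlgebra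

/-- Let `k` be a field of characteristic zero, let `A = Alt(V)` be the free non-unital alternative
algebra on `V = k^9` (with the product `m`), let `L = ABG(A)` (with `t X p = X ⊗ p` and
`w p q = p ∧ q`) and let `δ` be the action of `sl_3` on `L`. For some `n ≥ 2`, the `sl_3`-module
`H_n(L, k)`, with the action `ρ` induced by `δ`, has a direct summand isomorphic to the trivial
module `k` or to the adjoint module `sl_3`. -/
theorem result (k : Type u) [Field k] [CharZero k] :
    ∃ (A : Type u) (_ : AddCommGroup A) (_ : Module k A) (m : A →ₗ[k] A →ₗ[k] A)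
      (g : (Fin 9 → k) →ₗ[k] A) (L : Type u) (_ : LieRing L) (_ : LieAlgebra k L)
      (t : Sl3 k →ₗ[k] A →ₗ[k] L) (w : A →ₗ[k] A →ₗ[k] L) (δ : Sl3 k → L →ₗ[k] L) (n : ℕ)
      (ρ : Sl3 k → HL k L n →ₗ[k] HL k L n),
      IsFreeAlt m g ∧ IsABG m t w ∧ IsAction t w δ ∧ 2 ≤ n ∧ IsInduced δ ρ ∧
        (HasSummand ρ (fun _ : Sl3 k => (0 : k →ₗ[k] k)) ∨
          HasSummand ρ (fun X : Sl3 k => (LieAlgebra.ad k (Sl3 k) X : Sl3 k →ₗ[k] Sl3 k))) :=
  exists_model k

end Pool.Agent.Results.MP_894cc0_al.HomologySummand
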